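import Pool.Agent.Helper17K9.OM.Mass

set_option autoImplicit false

namespace Pool.Agent.Helper17K9.OM

open Pool.Agent.Q10.E8

/-- the invariant of degree eight -/
noncomputable def hh (m : ℕ) (v : Fin 8 → ℤ) : ℤ := rootSum v - 480 * (m : ℤ) ^ 4

theorem hh_even {m : ℕ} {v : Fin 8 → ℤ} (hv : InShell m v) : ∃ x, hh m v = 2 * x := by
  obtain ⟨c, rfl⟩ := vec_surj v hv.1
  exact ⟨S8 c - 240 * (m : ℤ) ^ 4, by unfold hh; rw [rootSum_vec]; ring⟩

theorem pr_two (u r : Fin 8 → ℤ) (hu : IsE8 u) (hr : IsE8 r) : pr (fun i => 2 * u i) r = 2 * pr u r := by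
  have h1 := pr_spec u r hu hr
  unfold pr at *
  have h2 : ∑ i, 2 * u i * r i = 4 * (2 * ((∑ i, u i * r i) / 4)) := by
    have : ∑ i, 2 * u i * r i = 2 * ∑ i, u i * r i := by
      rw [Finset.mul_sum]
      exact Finset.sum_congr rfl fun i _ => by ring
    rw [this, ← h1]
    ring_nf
    omega
  rw [h2]
  omega

theorem rootSum_two (u : Fin 8 → ℤ) (hu : IsE8 u) : rootSum (fun i => 2 * u i) = 256 * rootSum u := by
  unfold rootSum
  rw [Finset.mul_sum]
  refine Finset.sum_congr rfl fun r hr => ?_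
  rw [pr_two u r hu ((mem_shell 1 r).mp hr).1]
  ring

theorem half_shell {m : ℕ} {v u : Fin 8 → ℤ} (hv : InShell m v) (hu : IsE8 u)
    (h : v = fun i => 2 * u i) : ∃ q : ℕ, m = 4 * q ∧ InShell q u ∧ hh m v = 256 * hh q u := by
  obtain ⟨c, rfl⟩ := vec_surj u hu
  have h1 := vec_norm c
  have h2 : ∑ i, v i ^ 2 = 4 * ∑ i, vec c i ^ 2 := by
    rw [h, Finset.mul_sum]
    exact Finset.sum_congr rfl fun i _ => by ring
  rw [hv.2, h1] at h2
  have h3 : (m : ℤ) = 4 * qf c := by omega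
  have h4 : 0 ≤ qf c := by omega
  refine ⟨(qf c).toNat, by omega, ⟨hu, ?_⟩, ?_⟩
  · rw [h1, Int.toNat_of_nonneg h4]
  · unfold hh
    rw [h, rootSum_two _ hu, Int.toNat_of_nonneg h4, h3]
    ring

theorem four : ∀ m : ℕ, 0 < m → ∀ (k : ℕ) (y : Fin k → Fin 8 → ℤ), 0 < k → (∀ i, InShell m (y i)) →
    ∑ i, hh m (y i) = 0 → 4 ≤ k := by
  intro m
  induction m using Nat.strong_induction_on with
  | _ m ih =>
  intro hm k y hk hy h0
  rcases Nat.mod_two_eq_zero_or_one m with h2 | h2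
  · classical
    set A : Finset (Fin k) := Finset.univ.filter (fun i => ¬ ∃ u, IsE8 u ∧ y i = fun j => 2 * u j) with hA
    have h1 : ∀ i ∈ A, ∃ x, hh m (y i) = 128 + 512 * x := by
      intro i hi
      have h3 := inv_even (hy i) h2 (Finset.mem_filter.mp hi).2
      exact ⟨hh m (y i) / 512, by unfold hh; omega⟩
    have h4 : ∀ i ∈ Finset.univ.filter (fun i => ¬ ¬ ∃ u, IsE8 u ∧ y i = fun j => 2 * u j),
        ∃ x, hh m (y i) = 512 * x := by
      intro i hi
      obtain ⟨u, hu, hyu⟩ := not_not.mp (Finset.mem_filter.mp hi).2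
      obtain ⟨q, -, hq, he⟩ := half_shell (hy i) hu hyu
      obtain ⟨x, hx⟩ := hh_even hq
      exact ⟨x, by rw [he, hx]; ring⟩
    have h5 : (512 : ℤ) ∣ ∑ i ∈ Finset.univ.filter (fun i => ¬ ¬ ∃ u, IsE8 u ∧ y i = fun j => 2 * u j),
        hh m (y i) := Finset.dvd_sum fun i hi => by
      obtain ⟨x, hx⟩ := h4 i hi
      exact ⟨x, hx⟩
    have h6 : (512 : ℤ) ∣ (∑ i ∈ A, hh m (y i)) - 128 * (A.card : ℤ) := by
      have : (∑ i ∈ A, hh m (y i)) - 128 * (A.card : ℤ) = ∑ i ∈ A, (hh m (y i) - 128) := by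
        rw [Finset.sum_sub_distrib]
        simp
        ring
      rw [this]
      refine Finset.dvd_sum fun i hi => ?_
      obtain ⟨x, hx⟩ := h1 i hi
      exact ⟨x, by rw [hx]; ring⟩
    have h7 := Finset.sum_filter_add_sum_filter_not Finset.univ
      (fun i => ¬ ∃ u, IsE8 u ∧ y i = fun j => 2 * u j) (fun i => hh m (y i))
    rw [h0] at h7
    rw [← hA] at h7
    obtain ⟨a, ha⟩ := h5
    obtain ⟨b, hb⟩ := h6
    rw [ha] at h7
    have h8 : (4 : ℤ) ∣ (A.card : ℤ) := by omega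
    have h9 : A.card ≤ k := by
      have := Finset.card_le_univ A
      simpa using this
    rcases Nat.eq_zero_or_pos A.card with h10 | h10
    · rw [Finset.card_eq_zero] at h10
      have h11 : ∀ i, ∃ u, IsE8 u ∧ y i = fun j => 2 * u j := by
        intro i
        by_contra hc
        have : i ∈ A := Finset.mem_filter.mpr ⟨Finset.mem_univ i, hc⟩
        rw [h10] at this
        exact absurd this (Finset.notMem_empty i)
      choose u hu hyu using h11
      have h12 : ∀ i, ∃ q : ℕ, m = 4 * q ∧ InShell q (u i) ∧ hh m (y i) = 256 * hh q (u i) :=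
        fun i => half_shell (hy i) (hu i) (hyu i)
      obtain ⟨q, hq, -⟩ := h12 ⟨0, hk⟩
      have h13 : ∀ i, InShell q (u i) ∧ hh m (y i) = 256 * hh q (u i) := by
        intro i
        obtain ⟨q', hq', h14, h15⟩ := h12 i
        have : q' = q := by omega
        rw [this] at h14 h15
        exact ⟨h14, h15⟩
      refine ih q (by omega) (by omega) k u hk (fun i => (h13 i).1) ?_
      rw [Finset.sum_congr rfl fun i _ => (h13 i).2, ← Finset.mul_sum] at h0
      omega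
    · omega
  · have h1 : ∀ i, ∃ x, hh m (y i) = 16 + 64 * x := by
      intro i
      have h3 := inv_odd (hy i) h2
      exact ⟨hh m (y i) / 64, by unfold hh; omega⟩
    choose x hx using h1
    rw [Finset.sum_congr rfl fun i _ => hx i, Finset.sum_add_distrib, ← Finset.mul_sum] at h0
    simp at h0
    omega

theorem union_four (m k : ℕ) (O : Fin k → Finset (Fin 8 → ℤ)) (y : Fin k → Fin 8 → ℤ)
    (hm : 0 < m) (hy : ∀ i, InShell m (y i))
    (hO : ∀ i, ∀ v ∈ O i, ∃ a : (Fin 8 → ℤ) → (Fin 8 → ℤ), IsAut a ∧ v = a (y i))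
    (hd : ∀ i j, i ≠ j → Disjoint (O i) (O j)) (hc : ∀ i j, (O i).card = (O j).card)
    (hD : IsDesign 8 m (Finset.univ.biUnion O)) : 4 ≤ k := by
  obtain ⟨hne, hC⟩ := hD
  obtain ⟨v0, hv0⟩ := hne
  obtain ⟨i0, -, hi0⟩ := Finset.mem_biUnion.mp hv0
  have hs : 0 < (O i0).card := Finset.card_pos.mpr ⟨v0, hi0⟩
  have hk : 0 < k := i0.pos
  have hE : ∀ v ∈ Finset.univ.biUnion O, InShell m v := by
    intro v hv
    obtain ⟨i, -, hi⟩ := Finset.mem_biUnion.mp hv
    obtain ⟨a, ha, rfl⟩ := hO i v hi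
    exact (aut_shell ha (hy i).1).mpr (hy i)
  have h1 := cub_sum hE hC
  rw [Finset.sum_biUnion (fun i _ j _ hij => hd i j hij)] at h1
  refine four m hm k y hk hy ?_
  have h2 : ∀ i ∈ (Finset.univ : Finset (Fin k)), ∑ v ∈ O i, (1 : ℝ) * ((rootSum v : ℝ) - 480 * (m : ℝ) ^ 4)
      = ((O i0).card : ℝ) * (hh m (y i) : ℝ) := by
    intro i _
    rw [hc i0 i]
    have h3 : ∀ v ∈ O i, (1 : ℝ) * ((rootSum v : ℝ) - 480 * (m : ℝ) ^ 4) = (hh m (y i) : ℝ) := by
      intro v hv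
      obtain ⟨a, ha, rfl⟩ := hO i v hv
      rw [rootSum_aut ha (hy i).1]
      unfold hh
      push_cast
      ring
    rw [Finset.sum_congr rfl h3]
    simp
  rw [Finset.sum_congr rfl h2, ← Finset.mul_sum] at h1
  have h4 := (mul_eq_zero.mp h1).resolve_left (by exact_mod_cast hs.ne')
  exact_mod_cast h4

end Pool.Agent.Helper17K9.OM
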