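import Pool.Agent.Q10.E8.MainB
import Pool.Agent.Helper17K9.ED.Sph
import Pool.Agent.Helper17K9.ED.Dvd
import Pool.Agent.Helper17K9.ED.Sup
import Pool.Agent.Helper17K9.ED.Luc
import Pool.Agent.Helper17K9.ED.Ex
import Pool.Agent.Helper86K9.ED.Lu

set_option autoImplicit false

open MeasureTheory Metric Set

namespace Pool.Agent.Helper17K9.OM

open Pool.Agent.Q10.E8 Pool.Agent.Helper17K9.ED

theorem momR {t m : ℕ} {Y : Finset (Fin 8 → ℤ)} {w : (Fin 8 → ℤ) → ℝ} (hC : Cubature t m Y w)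
    (hY : ∀ v ∈ Y, IsE8 v) {r : Fin 8 → ℤ} (hr : IsE8 r) (hs : ∑ i, r i ^ 2 = 8 * ((1 : ℕ) : ℤ))
    (k : ℕ) (hk : 2 * k ≤ t) :
    (10 : ℝ) * ∑ v ∈ Y, w v * (pr v r : ℝ) ^ (2 * k)
      = (∑ v ∈ Y, w v) * ((sc k : ℝ) * (m : ℝ) ^ k) := by
  have hS : S_SPH := sph sup
  set z : E := (WithLp.toLp 2 fun i => (r i : ℝ) / 2) with hz
  have hzi : ∀ i, z i = (r i : ℝ) / 2 := fun i => rfl
  have hnorm : ‖z‖ ^ 2 = 2 := by
    rw [EuclideanSpace.norm_sq_eq]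
    have : ∀ i, ‖z i‖ ^ 2 = (r i : ℝ) ^ 2 / 4 := by
      intro i
      rw [hzi, Real.norm_eq_abs, sq_abs]; ring
    rw [Finset.sum_congr rfl fun i _ => this i, ← Finset.sum_div]
    have h2 : ∑ i, (r i : ℝ) ^ 2 = 8 * ((1 : ℕ) : ℝ) := by exact_mod_cast hs
    rw [h2]; norm_num
  have hV := vol_pos
  have h1 := moment hC z (2 * k) hk
  have h2 : ∑ v ∈ Y, w v * (∑ i, z i * ((v i : ℝ) / 2)) ^ (2 * k)
      = ∑ v ∈ Y, w v * (pr v r : ℝ) ^ (2 * k) := by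
    refine Finset.sum_congr rfl fun v hv => ?_
    rw [aux_z hY r hr v hv]
  rw [h2, F_eq, pow_mul, pow_mul, hnorm, Real.sq_sqrt (by positivity)] at h1
  have h3 := hS k
  apply mul_right_cancel₀ hV.ne'
  have h4 : (2 * (m : ℝ)) ^ k * ((2 : ℝ) ^ k * F (2 * k) (e 0))
      = (m : ℝ) ^ k * (4 ^ k * F (2 * k) (e 0)) := by
    rw [← mul_assoc, ← mul_assoc, ← mul_pow, ← mul_pow]
    congr 2
    ring
  rw [h4] at h1
  calc (10 : ℝ) * (∑ v ∈ Y, w v * (pr v r : ℝ) ^ (2 * k)) * sg.real Set.univ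
      = 10 * ((∑ v ∈ Y, w v * (pr v r : ℝ) ^ (2 * k)) * sg.real Set.univ) := by ring
    _ = 10 * ((∑ v ∈ Y, w v) * ((m : ℝ) ^ k * (4 ^ k * F (2 * k) (e 0)))) := by rw [h1]
    _ = (∑ v ∈ Y, w v) * ((m : ℝ) ^ k * (10 * 4 ^ k * F (2 * k) (e 0))) := by ring
    _ = (∑ v ∈ Y, w v) * ((m : ℝ) ^ k * (sc k * sg.real Set.univ)) := by rw [h3]
    _ = _ := by ring

/-- Sum over the roots of a function of the inner product. -/
noncomputable def J (f : ℤ → ℤ) (v : Fin 8 → ℤ) : ℤ := ∑ r ∈ shell 1, f (pr v r)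

theorem J_aut {g : (Fin 8 → ℤ) → (Fin 8 → ℤ)} (hg : IsAut g) (f : ℤ → ℤ) {v : Fin 8 → ℤ}
    (hv : IsE8 v) : J f (g v) = J f v := by
  unfold J
  symm
  refine Finset.sum_nbij g ?_ ?_ ?_ ?_
  · intro r hr
    rw [mem_shell] at hr ⊢
    exact (aut_shell hg hr.1).mpr hr
  · intro a ha b hb hab
    rw [Finset.mem_coe, mem_shell] at ha hb
    exact hg.1.injOn ha.1 hb.1 hab
  · intro r hr
    rw [Finset.mem_coe, mem_shell] at hr
    obtain ⟨s, hs, rfl⟩ := hg.1.surjOn hr.1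
    refine ⟨s, ?_, rfl⟩
    rw [Finset.mem_coe, mem_shell]
    exact (aut_shell hg hs).mp hr
  · intro r hr
    rw [mem_shell] at hr
    unfold pr
    rw [hg.2 v r hv hr.1]

/-- `Y` with the weights `w` is divided into `k` parts, the `i`-th part lies in the orbit of `y i` under the
automorphism group of the lattice and has mass `g * c i`. -/
def OrbitMasses (Y : Finset (Fin 8 → ℤ)) (w : (Fin 8 → ℤ) → ℝ) (k : ℕ) (y : Fin k → Fin 8 → ℤ)
    (part : (Fin 8 → ℤ) → Fin k) (g : ℝ) (c : Fin k → ℤ) : Prop :=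
  (∀ v ∈ Y, ∃ a : (Fin 8 → ℤ) → (Fin 8 → ℤ), IsAut a ∧ v = a (y (part v))) ∧
    ∀ i, ∑ v ∈ Y.filter (fun v => part v = i), w v = g * (c i : ℝ)

theorem fold {Y : Finset (Fin 8 → ℤ)} {w : (Fin 8 → ℤ) → ℝ} {k : ℕ} {y : Fin k → Fin 8 → ℤ}
    {part : (Fin 8 → ℤ) → Fin k} {g : ℝ} {c : Fin k → ℤ} (h : OrbitMasses Y w k y part g c)
    (hy : ∀ i, IsE8 (y i)) (f : ℤ → ℤ) :
    ∑ v ∈ Y, w v * (J f v : ℝ) = g * ((∑ i, c i * J f (y i) : ℤ) : ℝ) := by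
  have h1 : ∑ v ∈ Y, w v * (J f v : ℝ) = ∑ v ∈ Y, w v * (J f (y (part v)) : ℝ) := by
    refine Finset.sum_congr rfl fun v hv => ?_
    obtain ⟨a, ha, hva⟩ := h.1 v hv
    have h2 : J f v = J f (y (part v)) := by
      conv_lhs => rw [hva]
      exact J_aut ha f (hy _)
    rw [h2]
  rw [h1, ← Finset.sum_fiberwise Y part]
  push_cast
  rw [Finset.mul_sum]
  refine Finset.sum_congr rfl fun i _ => ?_
  rw [← mul_assoc, ← h.2 i, Finset.sum_mul]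
  refine Finset.sum_congr rfl fun v hv => ?_
  rw [(Finset.mem_filter.mp hv).2]

theorem fold_one {Y : Finset (Fin 8 → ℤ)} {w : (Fin 8 → ℤ) → ℝ} {k : ℕ} {y : Fin k → Fin 8 → ℤ}
    {part : (Fin 8 → ℤ) → Fin k} {g : ℝ} {c : Fin k → ℤ} (h : OrbitMasses Y w k y part g c) :
    ∑ v ∈ Y, w v = g * ((∑ i, c i : ℤ) : ℝ) := by
  rw [← Finset.sum_fiberwise Y part]
  push_cast
  rw [Finset.mul_sum]
  exact Finset.sum_congr rfl fun i _ => h.2 i

/-- The basic identity. -/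
theorem basic {Y : Finset (Fin 8 → ℤ)} {w : (Fin 8 → ℤ) → ℝ} {k : ℕ}
    {y : Fin k → Fin 8 → ℤ} {part : (Fin 8 → ℤ) → Fin k} {g : ℝ} {c : Fin k → ℤ} (hg : g ≠ 0)
    (h : OrbitMasses Y w k y part g c) (hy : ∀ i, IsE8 (y i)) (f : ℤ → ℤ) (A : ℤ)
    (hf : ∀ r : Fin 8 → ℤ, InShell 1 r →
      (10 : ℝ) * ∑ v ∈ Y, w v * (f (pr v r) : ℝ) = (∑ v ∈ Y, w v) * (A : ℝ)) :
    10 * ∑ i, c i * J f (y i) = 240 * A * ∑ i, c i := by
  have h1 : (10 : ℝ) * ∑ v ∈ Y, w v * (J f v : ℝ) = 240 * ((∑ v ∈ Y, w v) * (A : ℝ)) := by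
    have h2 : ∑ v ∈ Y, w v * (J f v : ℝ) = ∑ r ∈ shell 1, ∑ v ∈ Y, w v * (f (pr v r) : ℝ) := by
      rw [Finset.sum_comm]
      refine Finset.sum_congr rfl fun v _ => ?_
      unfold J
      push_cast
      rw [Finset.mul_sum]
    rw [h2, Finset.mul_sum, Finset.sum_congr rfl fun r hr => hf r ((mem_shell 1 r).mp hr),
      Finset.sum_const, card_roots]
    simp
  rw [fold h hy f, fold_one h] at h1
  have h3 : g * ((10 * ∑ i, c i * J f (y i) : ℤ) : ℝ) = g * ((240 * A * ∑ i, c i : ℤ) : ℝ) := by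
    push_cast
    push_cast at h1
    linear_combination h1
  exact_mod_cast mul_left_cancel₀ hg h3

theorem eight {t m : ℕ} {Y : Finset (Fin 8 → ℤ)} {w : (Fin 8 → ℤ) → ℝ} {k : ℕ}
    {y : Fin k → Fin 8 → ℤ} {part : (Fin 8 → ℤ) → Fin k} {g : ℝ} {c : Fin k → ℤ} (hg : g ≠ 0)
    (ht : 8 ≤ t) (hC : Cubature t m Y w) (hY : ∀ v ∈ Y, IsE8 v)
    (h : OrbitMasses Y w k y part g c) (hy : ∀ i, IsE8 (y i)) :
    (840 : ℤ) ∣ Fp m * ∑ i, c i := by
  have h1 := basic hg h hy R8 (2 * Fp m) (by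
    intro r hr
    obtain ⟨h2, h4, h6, h8⟩ := moments_int hC ht hY r hr.1 1 hr.2
    have h1 := moments_odd hC hY r hr.1 1 (by decide) (by omega)
    have h3 := moments_odd hC hY r hr.1 3 (by decide) (by omega)
    have h5 := moments_odd hC hY r hr.1 5 (by decide) (by omega)
    have h7 := moments_odd hC hY r hr.1 7 (by decide) (by omega)
    have e1 : ∑ v ∈ Y, w v * (R8 (pr v r) : ℝ)
        = ∑ v ∈ Y, w v * (pr v r : ℝ) ^ 8 + 4 * ∑ v ∈ Y, w v * (pr v r : ℝ) ^ 7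
          - 14 * ∑ v ∈ Y, w v * (pr v r : ℝ) ^ 6
          - 56 * ∑ v ∈ Y, w v * (pr v r : ℝ) ^ 5
          + 49 * ∑ v ∈ Y, w v * (pr v r : ℝ) ^ 4
          + 196 * ∑ v ∈ Y, w v * (pr v r : ℝ) ^ 3
          - 36 * ∑ v ∈ Y, w v * (pr v r : ℝ) ^ 2
          - 144 * ∑ v ∈ Y, w v * (pr v r : ℝ) ^ 1 := by
      simp only [Finset.mul_sum]
      rw [← Finset.sum_add_distrib, ← Finset.sum_sub_distrib, ← Finset.sum_sub_distrib,
        ← Finset.sum_add_distrib, ← Finset.sum_add_distrib, ← Finset.sum_sub_distrib,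
        ← Finset.sum_sub_distrib]
      refine Finset.sum_congr rfl fun v _ => ?_
      unfold R8
      push_cast
      ring
    rw [e1, h1, h3, h5, h7]
    push_cast at h2 h4 h6 h8
    unfold Fp
    push_cast
    linear_combination 10 * h8 - 140 * h6 + 98 * h4 - 180 * h2)
  have h2 : (40320 : ℤ) ∣ ∑ i, c i * J R8 (y i) := by
    refine Finset.dvd_sum fun i _ => Dvd.dvd.mul_left ?_ _
    unfold J
    exact Finset.dvd_sum fun r _ => R8_dvd _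
  obtain ⟨x, hx⟩ := h2
  rw [hx] at h1
  refine ⟨x, ?_⟩
  have h3 : 480 * (Fp m * ∑ i, c i) = 480 * (840 * x) := by linarith
  exact mul_left_cancel₀ (by norm_num) h3

theorem powers {t m : ℕ} {Y : Finset (Fin 8 → ℤ)} {w : (Fin 8 → ℤ) → ℝ} {k : ℕ}
    {y : Fin k → Fin 8 → ℤ} {part : (Fin 8 → ℤ) → Fin k} {g : ℝ} {c : Fin k → ℤ} (hg : g ≠ 0)
    (hC : Cubature t m Y w) (hY : ∀ v ∈ Y, IsE8 v)
    (h : OrbitMasses Y w k y part g c) (hy : ∀ i, IsE8 (y i))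
    (n : ℕ) (d : ℕ → ℤ) (κ : ℕ → ℕ) (hκ : ∀ i ∈ Finset.range n, 2 * κ i ≤ t) :
    10 * ∑ i, c i * J (fun j => ∑ a ∈ Finset.range n, d a * j ^ (2 * κ a)) (y i)
      = 240 * (∑ a ∈ Finset.range n, d a * (sc (κ a) * (m : ℤ) ^ (κ a))) * ∑ i, c i := by
  refine basic hg h hy _ _ ?_
  intro r hr
  have h1 : ∑ v ∈ Y, w v * ((∑ a ∈ Finset.range n, d a * (pr v r) ^ (2 * κ a) : ℤ) : ℝ)
      = ∑ a ∈ Finset.range n, (d a : ℝ) * ∑ v ∈ Y, w v * (pr v r : ℝ) ^ (2 * κ a) := by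
    simp only [Finset.mul_sum]
    rw [Finset.sum_comm]
    refine Finset.sum_congr rfl fun v _ => ?_
    push_cast
    rw [Finset.mul_sum]
    refine Finset.sum_congr rfl fun a _ => ?_
    ring
  rw [h1, Finset.mul_sum]
  push_cast
  rw [Finset.mul_sum]
  refine Finset.sum_congr rfl fun a ha => ?_
  have h2 := momR hC hY hr.1 hr.2 (κ a) (hκ a ha)
  linear_combination (d a : ℝ) * h2

theorem coprime240 {l : ℕ} (hl : l.Prime) (h5 : 5 < l) {n : ℕ} {B x : ℤ}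
    (h : (l : ℤ) ^ n ∣ 240 * B * x) (hB : ((B : ℤ) : ZMod l) ≠ 0) : (l : ℤ) ^ n ∣ x := by
  have h1 : (l : ℤ) ^ n ∣ x * (240 * B) := by
    rw [mul_comm]
    exact h
  refine DvL.fin hl h1 ?_
  have := Fact.mk hl
  push_cast
  refine mul_ne_zero ?_ hB
  intro h0
  have h2 : ((240 : ℕ) : ZMod l) = 0 := by exact_mod_cast h0
  rw [ZMod.natCast_eq_zero_iff] at h2
  have h3 : l ∣ 2 ^ 4 * (3 * 5) := by
    norm_num
    exact h2
  rcases (Nat.Prime.dvd_mul hl).mp h3 with h4 | h4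
  · have := Nat.le_of_dvd (by norm_num) (hl.dvd_of_dvd_pow h4)
    omega
  · rcases (Nat.Prime.dvd_mul hl).mp h4 with h6 | h6
    · have := Nat.le_of_dvd (by norm_num) h6
      omega
    · have := Nat.le_of_dvd (by norm_num) h6
      omega

theorem even_part {t m : ℕ} {Y : Finset (Fin 8 → ℤ)} {w : (Fin 8 → ℤ) → ℝ} {k : ℕ}
    {y : Fin k → Fin 8 → ℤ} {part : (Fin 8 → ℤ) → Fin k} {g : ℝ} {c : Fin k → ℤ} (hg : g ≠ 0)
    (hC : Cubature t m Y w) (hY : ∀ v ∈ Y, IsE8 v)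
    (h : OrbitMasses Y w k y part g c) (hy : ∀ i, IsE8 (y i))
    {l p : ℕ} (hl : l.Prime) (hlm : ¬ l ∣ m) (h5 : 5 < l) (hp : 2 * p + 5 < l)
    (ht : 2 * p * l ≤ t) : (l : ℤ) ^ (2 * p) ∣ ∑ i, c i := by
  have hE : S_EXE := exe (lue sup) (luo sup) (Pool.Agent.Helper86K9.ED.vde sup)
  have hc := powers hg hC hY h hy (2 * p + 1) (fun i => (Nat.choose (2 * p) i : ℤ) * (-1) ^ i)
    (fun i => p + i * ((l - 1) / 2)) (by
      intro i hi
      rw [Finset.mem_range] at hi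
      have h1 := DvL.half hl h5
      have h2 : 2 * (p + i * ((l - 1) / 2)) = 2 * p + i * (2 * ((l - 1) / 2)) := by ring
      show 2 * (p + i * ((l - 1) / 2)) ≤ t
      rw [h2, h1]
      have h3 : i * (l - 1) ≤ 2 * p * (l - 1) := Nat.mul_le_mul_right _ (by omega)
      have h4 : 2 * p * l = 2 * p * (l - 1) + 2 * p := by
        obtain ⟨k, rfl⟩ : ∃ k, l = k + 1 := ⟨l - 1, by omega⟩
        simp only [Nat.add_sub_cancel]
        ring
      omega)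
  refine coprime240 hl h5 (B := ∑ i ∈ Finset.range (2 * p + 1), ((Nat.choose (2 * p) i : ℤ) * (-1) ^ i)
    * (sc (p + i * ((l - 1) / 2)) * (m : ℤ) ^ (p + i * ((l - 1) / 2)))) ?_ ?_
  · rw [← hc]
    refine Dvd.dvd.mul_left ?_ _
    refine Finset.dvd_sum fun i _ => Dvd.dvd.mul_left ?_ _
    unfold J
    refine Finset.dvd_sum fun r _ => ?_
    beta_reduce
    rw [← DvL.exp_even hl h5]
    exact pow_dvd_pow_of_dvd (DvL.fermat hl _) _
  · have := hE l p hl hp h5 (m : ZMod l) (by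
      intro h0
      exact hlm ((ZMod.natCast_eq_zero_iff m l).mp h0))
    push_cast
    exact this

theorem odd_part {t m : ℕ} {Y : Finset (Fin 8 → ℤ)} {w : (Fin 8 → ℤ) → ℝ} {k : ℕ}
    {y : Fin k → Fin 8 → ℤ} {part : (Fin 8 → ℤ) → Fin k} {g : ℝ} {c : Fin k → ℤ} (hg : g ≠ 0)
    (hC : Cubature t m Y w) (hY : ∀ v ∈ Y, IsE8 v)
    (h : OrbitMasses Y w k y part g c) (hy : ∀ i, IsE8 (y i))
    {l p : ℕ} (hl : l.Prime) (hlm : ¬ l ∣ m) (hp1 : 1 ≤ p) (hp : 2 * p + 5 < l)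
    (ht : (2 * p - 1) * l + 1 ≤ t) : (l : ℤ) ^ (2 * p - 1) ∣ ∑ i, c i := by
  have hE : S_EXO := exo (lue sup) (luo sup) (Pool.Agent.Helper86K9.ED.vdo sup)
  have h5 : 5 < l := by omega
  have hc := powers hg hC hY h hy (2 * p) (fun i => (Nat.choose (2 * p - 1) i : ℤ) * (-1) ^ i)
    (fun i => p + i * ((l - 1) / 2)) (by
      intro i hi
      rw [Finset.mem_range] at hi
      have h1 := DvL.half hl h5
      have h2 : 2 * (p + i * ((l - 1) / 2)) = 2 * p + i * (2 * ((l - 1) / 2)) := by ring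
      show 2 * (p + i * ((l - 1) / 2)) ≤ t
      rw [h2, h1]
      have h3 : i * (l - 1) ≤ (2 * p - 1) * (l - 1) := Nat.mul_le_mul_right _ (by omega)
      have h4 : (2 * p - 1) * l = (2 * p - 1) * (l - 1) + (2 * p - 1) := by
        obtain ⟨k, rfl⟩ : ∃ k, l = k + 1 := ⟨l - 1, by omega⟩
        simp only [Nat.add_sub_cancel]
        ring
      omega)
  refine coprime240 hl h5 (B := ∑ i ∈ Finset.range (2 * p), ((Nat.choose (2 * p - 1) i : ℤ) * (-1) ^ i)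
    * (sc (p + i * ((l - 1) / 2)) * (m : ℤ) ^ (p + i * ((l - 1) / 2)))) ?_ ?_
  · rw [← hc]
    refine Dvd.dvd.mul_left ?_ _
    refine Finset.dvd_sum fun i _ => Dvd.dvd.mul_left ?_ _
    unfold J
    refine Finset.dvd_sum fun r _ => ?_
    have h1 := DvL.exp_odd hl h5 p hp1 (pr (y i) r)
    have h2 : (l : ℤ) ^ (2 * p - 1) ∣ (pr (y i) r ^ l - pr (y i) r) ^ (2 * p - 1) * pr (y i) r :=
      Dvd.dvd.mul_right (pow_dvd_pow_of_dvd (DvL.fermat hl _) _) _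
    rw [h1] at h2
    exact (dvd_neg.mp h2)
  · have := hE l p hl hp1 hp (m : ZMod l) (by
      intro h0
      exact hlm ((ZMod.natCast_eq_zero_iff m l).mp h0))
    push_cast
    exact this

theorem Fp_coprime (n : ℕ) (hn : Nat.Prime n) (m : ℕ) (h : ((Fp m : ℤ) : ZMod n) ≠ 0) :
    IsCoprime (n : ℤ) (Fp m) :=
  (Prime.coprime_iff_not_dvd (Nat.prime_iff_prime_int.mp hn)).mpr
    fun h' => h ((ZMod.intCast_zmod_eq_zero_iff_dvd (Fp m) n).mpr h')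

theorem Fp2 (m : ℕ) (h : ¬ 2 ∣ m) : IsCoprime ((2 : ℕ) : ℤ) (Fp m) := by
  apply Fp_coprime 2 (by norm_num)
  have h5 := cast_ne 2 h
  unfold Fp
  push_cast at h5 ⊢
  generalize (m : ZMod 2) = x at h5 ⊢
  revert x
  decide +kernel

theorem Fp5 (m : ℕ) (h : ¬ 5 ∣ m) : IsCoprime ((5 : ℕ) : ℤ) (Fp m) := by
  apply Fp_coprime 5 (by norm_num)
  have h5 := cast_ne 5 h
  unfold Fp
  push_cast at h5 ⊢
  generalize (m : ZMod 5) = x at h5 ⊢
  revert x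
  decide +kernel

theorem Fp7 (m : ℕ) (h : ¬ 7 ∣ m) : IsCoprime ((7 : ℕ) : ℤ) (Fp m) := by
  apply Fp_coprime 7 (by norm_num)
  have h5 := cast_ne 7 h
  unfold Fp
  push_cast at h5 ⊢
  generalize (m : ZMod 7) = x at h5 ⊢
  revert x
  decide +kernel

theorem Fp3 (m : ℕ) (h : m % 3 = 2) : IsCoprime ((3 : ℕ) : ℤ) (Fp m) := by
  apply Fp_coprime 3 (by norm_num)
  have h5 : ((m : ℤ) : ZMod 3) = 2 := by
    push_cast
    rw [← ZMod.natCast_mod m 3, h]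
    rfl
  unfold Fp
  push_cast at h5 ⊢
  rw [h5]
  decide +kernel

theorem div280 (m : ℕ) (hm : Nat.Coprime m 70) (x : ℤ) (h : (840 : ℤ) ∣ Fp m * x) :
    (280 : ℤ) ∣ x ∧ (m % 3 = 2 → (840 : ℤ) ∣ x) := by
  have cop : ∀ p : ℕ, p.Prime → p ∣ 70 → ¬ p ∣ m := by
    intro p hp h1 h2
    have := Nat.dvd_gcd h2 h1
    rw [hm] at this
    exact hp.one_lt.ne' (Nat.dvd_one.mp this)
  have a2 : IsCoprime ((2 : ℤ) ^ 3) (Fp m) := IsCoprime.pow_left (by exact_mod_cast Fp2 m (cop 2 (by norm_num) (by norm_num)))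
  have a5 : IsCoprime (5 : ℤ) (Fp m) := by exact_mod_cast Fp5 m (cop 5 (by norm_num) (by norm_num))
  have a7 : IsCoprime (7 : ℤ) (Fp m) := by exact_mod_cast Fp7 m (cop 7 (by norm_num) (by norm_num))
  have a : IsCoprime (280 : ℤ) (Fp m) := by
    have := (a2.mul_left a5).mul_left a7
    norm_num at this
    exact this
  refine ⟨a.dvd_of_dvd_mul_left (Dvd.dvd.trans (by norm_num) h), fun h3 => ?_⟩
  have a3 : IsCoprime (3 : ℤ) (Fp m) := by exact_mod_cast Fp3 m h3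
  have b := a.mul_left a3
  norm_num at b
  exact b.dvd_of_dvd_mul_left h

theorem union_orbits (m k : ℕ) (O : Fin k → Finset (Fin 8 → ℤ)) (y : Fin k → Fin 8 → ℤ)
    (hm : Nat.Coprime m 70) (hy : ∀ i, InShell m (y i))
    (hO : ∀ i, ∀ v ∈ O i, ∃ a : (Fin 8 → ℤ) → (Fin 8 → ℤ), IsAut a ∧ v = a (y i))
    (hd : ∀ i j, i ≠ j → Disjoint (O i) (O j)) (hc : ∀ i j, (O i).card = (O j).card)
    (hD : IsDesign 8 m (Finset.univ.biUnion O)) : 280 ∣ k ∧ (m % 3 = 2 → 840 ∣ k) := by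
  classical
  obtain ⟨hne, hC⟩ := hD
  set Y := Finset.univ.biUnion O with hY
  obtain ⟨v0, hv0⟩ := hne
  obtain ⟨i0, -, hi0⟩ := Finset.mem_biUnion.mp hv0
  have hs : 0 < (O i0).card := Finset.card_pos.mpr ⟨v0, hi0⟩
  set part : (Fin 8 → ℤ) → Fin k := fun v => if h : ∃ i, v ∈ O i then h.choose else i0 with hpart
  have hp : ∀ i, ∀ v ∈ O i, part v = i := by
    intro i v hv
    have h : ∃ i, v ∈ O i := ⟨i, hv⟩
    have h1 : part v = h.choose := by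
      rw [hpart]
      simp only [h, dite_true]
    rw [h1]
    by_contra hne
    exact (Finset.disjoint_left.mp (hd _ _ hne)) h.choose_spec hv
  have hin : ∀ v ∈ Y, ∃ i, v ∈ O i := by
    intro v hv
    obtain ⟨i, -, hi⟩ := Finset.mem_biUnion.mp hv
    exact ⟨i, hi⟩
  have hfil : ∀ i, Y.filter (fun v => part v = i) = O i := by
    intro i
    ext v
    rw [Finset.mem_filter]
    constructor
    · rintro ⟨h1, h2⟩
      obtain ⟨j, hj⟩ := hin v h1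
      rw [hp j v hj] at h2
      rw [← h2]
      exact hj
    · intro h1
      exact ⟨Finset.mem_biUnion.mpr ⟨i, Finset.mem_univ i, h1⟩, hp i v h1⟩
  have hE : ∀ v ∈ Y, IsE8 v := by
    intro v hv
    obtain ⟨i, hi⟩ := hin v hv
    obtain ⟨a, ha, rfl⟩ := hO i v hi
    exact ((aut_shell ha (hy i).1).mpr (hy i)).1
  have hOM : OrbitMasses Y (fun _ => 1) k y part ((O i0).card : ℝ) (fun _ => 1) := by
    refine ⟨fun v hv => ?_, fun i => ?_⟩
    · obtain ⟨i, hi⟩ := hin v hv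
      rw [hp i v hi]
      exact hO i v hi
    · rw [hfil i, hc i0 i]
      simp
  have h1 := eight (by exact_mod_cast hs.ne') le_rfl hC hE hOM (fun i => (hy i).1)
  simp only [Finset.sum_const, Finset.card_univ, Fintype.card_fin, nsmul_eq_mul, mul_one] at h1
  obtain ⟨h2, h3⟩ := div280 m hm k h1
  exact ⟨by exact_mod_cast h2, fun h => by exact_mod_cast h3 h⟩

end Pool.Agent.Helper17K9.OM
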