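import Pool.Agent.Helper17K9.OM.Mass
import Pool.Agent.Helper17K9.ED.Upg

set_option autoImplicit false

namespace Pool.Agent.Helper17K9.OM

open Pool.Agent.Q10.E8 Pool.Agent.Helper17K9.ED

theorem even2 {t m : ℕ} {Y : Finset (Fin 8 → ℤ)} {w : (Fin 8 → ℤ) → ℝ} {k : ℕ}
    {y : Fin k → Fin 8 → ℤ} {part : (Fin 8 → ℤ) → Fin k} {g : ℝ} {c : Fin k → ℤ} (hg : g ≠ 0)
    (hC : Cubature t m Y w) (hY : ∀ v ∈ Y, IsE8 v)
    (h : OrbitMasses Y w k y part g c) (hy : ∀ i, IsE8 (y i))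
    {l p : ℕ} (hl : l.Prime) (h5 : 5 < l) (hp : 2 * p + 5 < l)
    (ht : 2 * p * l ≤ t) : (l : ℤ) ^ (2 * p) ∣ (m : ℤ) ^ p * ∑ i, c i := by
  have hc := powers hg hC hY h hy (2 * p + 1) (fun i => (Nat.choose (2 * p) i : ℤ) * (-1) ^ i)
    (fun i => p + i * ((l - 1) / 2)) (fun i hi => UpL.deg_even hl h5 ht hi)
  rw [UpL.factor p (2 * p + 1) ((l - 1) / 2)] at hc
  refine coprime240 hl h5 (B := ∑ i ∈ Finset.range (2 * p + 1), ((Nat.choose (2 * p) i : ℤ) * (-1) ^ i)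
    * (sc (p + i * ((l - 1) / 2)) * (m : ℤ) ^ (i * ((l - 1) / 2)))) ?_ ?_
  · have h1 : (l : ℤ) ^ (2 * p) ∣ 10 * ∑ i, c i *
        J (fun j => ∑ a ∈ Finset.range (2 * p + 1), ((Nat.choose (2 * p) a : ℤ) * (-1) ^ a)
          * j ^ (2 * (p + a * ((l - 1) / 2)))) (y i) := by
      refine Dvd.dvd.mul_left ?_ _
      refine Finset.dvd_sum fun i _ => Dvd.dvd.mul_left ?_ _
      unfold J
      refine Finset.dvd_sum fun r _ => ?_
      beta_reduce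
      rw [← DvL.exp_even hl h5]
      exact pow_dvd_pow_of_dvd (DvL.fermat hl _) _
    rw [hc] at h1
    convert h1 using 1
    ring
  · exact UpL.U_ne hl hp h5 m (2 * p + 1) (by omega) (fun i => (Nat.choose (2 * p) i : ℤ) * (-1) ^ i)
      (by simp) (UpL.hEven hl hp h5)

theorem odd2 {t m : ℕ} {Y : Finset (Fin 8 → ℤ)} {w : (Fin 8 → ℤ) → ℝ} {k : ℕ}
    {y : Fin k → Fin 8 → ℤ} {part : (Fin 8 → ℤ) → Fin k} {g : ℝ} {c : Fin k → ℤ} (hg : g ≠ 0)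
    (hC : Cubature t m Y w) (hY : ∀ v ∈ Y, IsE8 v)
    (h : OrbitMasses Y w k y part g c) (hy : ∀ i, IsE8 (y i))
    {l p : ℕ} (hl : l.Prime) (hp1 : 1 ≤ p) (hp : 2 * p + 5 < l)
    (ht : (2 * p - 1) * l + 1 ≤ t) : (l : ℤ) ^ (2 * p - 1) ∣ (m : ℤ) ^ p * ∑ i, c i := by
  have h5 : 5 < l := by omega
  have hc := powers hg hC hY h hy (2 * p) (fun i => (Nat.choose (2 * p - 1) i : ℤ) * (-1) ^ i)
    (fun i => p + i * ((l - 1) / 2)) (fun i hi => UpL.deg_odd hl h5 ht hp1 hi)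
  rw [UpL.factor p (2 * p) ((l - 1) / 2)] at hc
  refine coprime240 hl h5 (B := ∑ i ∈ Finset.range (2 * p), ((Nat.choose (2 * p - 1) i : ℤ) * (-1) ^ i)
    * (sc (p + i * ((l - 1) / 2)) * (m : ℤ) ^ (i * ((l - 1) / 2)))) ?_ ?_
  · have h1 : (l : ℤ) ^ (2 * p - 1) ∣ 10 * ∑ i, c i *
        J (fun j => ∑ a ∈ Finset.range (2 * p), ((Nat.choose (2 * p - 1) a : ℤ) * (-1) ^ a)
          * j ^ (2 * (p + a * ((l - 1) / 2)))) (y i) := by
      refine Dvd.dvd.mul_left ?_ _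
      refine Finset.dvd_sum fun i _ => Dvd.dvd.mul_left ?_ _
      unfold J
      refine Finset.dvd_sum fun r _ => ?_
      have h1 := DvL.exp_odd hl h5 p hp1 (pr (y i) r)
      have h2 : (l : ℤ) ^ (2 * p - 1) ∣ (pr (y i) r ^ l - pr (y i) r) ^ (2 * p - 1) * pr (y i) r :=
        Dvd.dvd.mul_right (pow_dvd_pow_of_dvd (DvL.fermat hl _) _) _
      rw [h1] at h2
      exact (dvd_neg.mp h2)
    rw [hc] at h1
    convert h1 using 1
    ring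
  · exact UpL.U_ne hl hp h5 m (2 * p) (by omega) (fun i => (Nat.choose (2 * p - 1) i : ℤ) * (-1) ^ i)
      (by simp) (UpL.hOdd hl hp1 hp)

end Pool.Agent.Helper17K9.OM
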